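import Mathlib
import Pool.Agent.Results.MP_7b039f_nt.FrobeniusIncidence

set_option autoImplicit false

open Polynomial LinearAlgebra.Projectivization Filter Topology
open Pool.Agent.Results.MP_7b039f_nt.FrobeniusIncidence

namespace Pool.Agent.Results.MP_dd9c4c_nt.FrobeniusPole

/-- A subspace of dimension at most `d` is determined by `d` of the coordinates. -/
lemma exists_coords {K : Type} [Field K] {m : ℕ} (d : ℕ) :
    ∀ (W : Submodule K (Fin m → K)), Module.finrank K W ≤ d →
      ∃ J : Finset (Fin m), J.card ≤ d ∧ ∀ z ∈ W, (∀ j ∈ J, z j = 0) → z = 0 := by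
  classical
  induction d with
  | zero =>
    intro W hW
    refine ⟨∅, by simp, ?_⟩
    intro z hz _
    have h0 : W = ⊥ := Submodule.finrank_eq_zero.mp (by omega)
    rw [h0] at hz
    exact (Submodule.mem_bot K).mp hz
  | succ d ih =>
    intro W hW
    by_cases hbot : W = ⊥
    · refine ⟨∅, by simp, ?_⟩
      intro z hz _
      rw [hbot] at hz
      exact (Submodule.mem_bot K).mp hz
    · obtain ⟨w, hw, hw0⟩ := Submodule.exists_mem_ne_zero_of_ne_bot hbot
      obtain ⟨j, hj⟩ : ∃ j, w j ≠ 0 := by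
        by_contra hcon
        push Not at hcon
        exact hw0 (_root_.funext hcon)
      have hlt : W ⊓ LinearMap.ker (LinearMap.proj (R := K) (φ := fun _ : Fin m => K) j) < W := by
        refine lt_of_le_of_ne inf_le_left ?_
        intro heq
        rw [← heq] at hw
        have h2 : w ∈ LinearMap.ker (LinearMap.proj (R := K) (φ := fun _ : Fin m => K) j) := hw.2
        rw [LinearMap.mem_ker, LinearMap.proj_apply] at h2
        exact hj h2
      have hfr := Submodule.finrank_lt_finrank_of_lt hlt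
      obtain ⟨J, hJ, hJ'⟩ := ih (W ⊓ LinearMap.ker (LinearMap.proj (R := K)
        (φ := fun _ : Fin m => K) j)) (by omega)
      refine ⟨insert j J, (Finset.card_insert_le _ _).trans (by omega), ?_⟩
      intro z hz hzJ
      apply hJ' z
      · refine Submodule.mem_inf.mpr ⟨hz, ?_⟩
        rw [LinearMap.mem_ker, LinearMap.proj_apply]
        exact hzJ j (Finset.mem_insert_self _ _)
      · intro i hi
        exact hzJ i (Finset.mem_insert_of_mem hi)

/-- polynomial vectors in a subspace -/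
abbrev PolyIn {F : Type} [Field F] {m : ℕ} (W : Submodule (RatFunc F) (Fin m → RatFunc F)) : Type :=
  {c : Fin m → F[X] // (fun i => algebraMap F[X] (RatFunc F) (c i)) ∈ W}

lemma card_fiber_le {F : Type} [Field F] [Finite F] {m d : ℕ}
    (W : Submodule (RatFunc F) (Fin m → RatFunc F)) (hW : Module.finrank (RatFunc F) W ≤ d)
    (k : ℕ) : Finite ((fun c : PolyIn W => maxDeg c.1) ⁻¹' {k}) ∧
      Nat.card ((fun c : PolyIn W => maxDeg c.1) ⁻¹' {k}) ≤ Nat.card F ^ (d * (k + 1)) := by
  classical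
  obtain ⟨J, hJ, hJ'⟩ := exists_coords d W hW
  have hinj : Function.Injective (algebraMap F[X] (RatFunc F)) :=
    IsFractionRing.injective F[X] (RatFunc F)
  obtain ⟨φ, hφ⟩ : ∃ φ : ((fun c : PolyIn W => maxDeg c.1) ⁻¹' {k}) → (J → polyLT F (k + 1)),
      ∀ c j, ((φ c j : F[X])) = c.1.1 j := by
    refine ⟨fun c j => ⟨c.1.1 j, ?_⟩, fun c j => rfl⟩
    rw [mem_polyLT_succ]
    have h1 : maxDeg c.1.1 = k := c.2
    exact (Finset.le_sup (f := fun i => (c.1.1 i).natDegree) (Finset.mem_univ _)).trans h1.le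
  have hφinj : Function.Injective φ := by
    intro c c' h
    apply Subtype.ext
    apply Subtype.ext
    have hmem : (fun i => algebraMap F[X] (RatFunc F) (c.1.1 i - c'.1.1 i)) ∈ W := by
      have := W.sub_mem c.1.2 c'.1.2
      convert this using 1
      funext i
      simp
    have h0 := hJ' _ hmem (by
      intro j hj
      have h1 := hφ c ⟨j, hj⟩
      have h2 := hφ c' ⟨j, hj⟩
      rw [h] at h1
      rw [← h1, ← h2, sub_self, map_zero])
    funext i
    have h1 := congrFun h0 i
    simp only [Pi.zero_apply, map_eq_zero_iff _ hinj] at h1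
    exact sub_eq_zero.mp h1
  have hfin : Finite ((fun c : PolyIn W => maxDeg c.1) ⁻¹' {k}) := Finite.of_injective φ hφinj
  refine ⟨hfin, (Nat.card_le_card_of_injective φ hφinj).trans ?_⟩
  rw [Nat.card_fun, Nat.card_eq_fintype_card, Nat.card_eq_fintype_card, Fintype.card_coe,
    Fintype.card_coe, card_polyLT, ← pow_mul]
  apply Nat.pow_le_pow_right Nat.card_pos
  rw [mul_comm]
  exact Nat.mul_le_mul_right _ hJ

/-- the geometric majorant of the sum over polynomial vectors in a subspace -/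
lemma tsum_polyIn_le {F : Type} [Field F] [Finite F] {m d : ℕ}
    (W : Submodule (RatFunc F) (Fin m → RatFunc F)) (hW : Module.finrank (RatFunc F) W ≤ d)
    (σ : ℝ) :
    ∑' c : PolyIn W, ENNReal.ofReal ((Nat.card F : ℝ) ^ (-(σ * (maxDeg c.1 : ℝ))))
      ≤ ENNReal.ofReal ((Nat.card F : ℝ) ^ (d : ℝ)) *
        (1 - ENNReal.ofReal ((Nat.card F : ℝ) ^ ((d : ℝ) - σ)))⁻¹ := by
  have hq2 : 2 ≤ Nat.card F := Finite.one_lt_card
  obtain ⟨q, hq⟩ : ∃ q : ℝ, q = (Nat.card F : ℝ) := ⟨_, rfl⟩
  have hq0 : (0 : ℝ) < q := by rw [hq]; exact_mod_cast (by omega : 0 < Nat.card F)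
  rw [← hq, ← ENNReal.tsum_fiberwise _ (fun c : PolyIn W => maxDeg c.1),
    ← ENNReal.tsum_geometric, ← ENNReal.tsum_mul_left]
  apply ENNReal.tsum_le_tsum
  intro k
  obtain ⟨hfin, hcard⟩ := card_fiber_le W hW k
  have hconst : ∀ b : ((fun c : PolyIn W => maxDeg c.1) ⁻¹' {k}),
      ENNReal.ofReal (q ^ (-(σ * (maxDeg b.1.1 : ℝ)))) = ENNReal.ofReal (q ^ (-(σ * (k : ℝ)))) := by
    intro b
    have h1 : maxDeg b.1.1 = k := b.2
    rw [h1]
  rw [tsum_congr hconst]
  have := Fintype.ofFinite ((fun c : PolyIn W => maxDeg c.1) ⁻¹' {k})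
  rw [tsum_fintype, Finset.sum_const, nsmul_eq_mul, Finset.card_univ, ← Nat.card_eq_fintype_card]
  have h1 : ((Nat.card ((fun c : PolyIn W => maxDeg c.1) ⁻¹' {k}) : ℕ) : ENNReal)
      ≤ ENNReal.ofReal (q ^ ((d : ℝ) * ((k : ℝ) + 1))) := by
    have h2 : q ^ ((d : ℝ) * ((k : ℝ) + 1)) = ((Nat.card F ^ (d * (k + 1)) : ℕ) : ℝ) := by
      rw [hq]
      push_cast
      rw [← Real.rpow_natCast]
      congr 1
      push_cast
      ring
    rw [h2, ENNReal.ofReal_natCast]
    exact_mod_cast hcard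
  refine (mul_le_mul_left h1 _).trans ?_
  rw [← ENNReal.ofReal_pow (by positivity), ← ENNReal.ofReal_mul (by positivity),
    ← ENNReal.ofReal_mul (by positivity)]
  apply le_of_eq
  congr 1
  rw [← Real.rpow_natCast (q ^ ((d : ℝ) - σ)), ← Real.rpow_mul hq0.le, ← Real.rpow_add hq0,
    ← Real.rpow_add hq0]
  congr 1
  ring

lemma exists_maxDeg {F : Type} [Field F] {m : ℕ} (c : Fin m → F[X]) (hc : c ≠ 0) :
    ∃ i, c i ≠ 0 ∧ (c i).natDegree = maxDeg c := by
  obtain ⟨i0, hi0⟩ : ∃ i, c i ≠ 0 := by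
    by_contra hcon
    push Not at hcon
    exact hc (_root_.funext hcon)
  obtain ⟨i, _, hi⟩ := Finset.exists_mem_eq_sup (Finset.univ : Finset (Fin m))
    ⟨i0, Finset.mem_univ _⟩ (fun i => (c i).natDegree)
  by_cases h0 : c i = 0
  · refine ⟨i0, hi0, ?_⟩
    rw [h0, Polynomial.natDegree_zero] at hi
    have h1 : (c i0).natDegree ≤ maxDeg c :=
      Finset.le_sup (f := fun i => (c i).natDegree) (Finset.mem_univ i0)
    have h2 : maxDeg c = 0 := hi
    omega
  · exact ⟨i, h0, hi.symm⟩

/-- primitive vectors: only units divide all entries -/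
def Prim {F : Type} [Field F] {m : ℕ} (c : Fin m → F[X]) : Prop :=
  ∀ d : F[X], (∀ i, d ∣ c i) → IsUnit d

lemma Prim.ne_zero {F : Type} [Field F] {m : ℕ} {c : Fin m → F[X]} (h : Prim c) : c ≠ 0 := by
  rintro rfl
  have := h 0 (fun i => by simp)
  exact not_isUnit_zero this

/-- a common divisor of all products of powers of entries of two primitive vectors is a unit -/
lemma unit_of_dvd {F : Type} [Field F] {m m' : ℕ} {cx : Fin m → F[X]} {cy : Fin m' → F[X]}
    (hx : Prim cx) (hy : Prim cy) (a b : ℕ) (d : F[X])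
    (h : ∀ i j, d ∣ cx i ^ a * cy j ^ b) : IsUnit d := by
  by_contra hu
  have hd0 : d ≠ 0 := by
    rintro rfl
    obtain ⟨i, hi, _⟩ := exists_maxDeg cx hx.ne_zero
    obtain ⟨j, hj, _⟩ := exists_maxDeg cy hy.ne_zero
    exact mul_ne_zero (pow_ne_zero a hi) (pow_ne_zero b hj) (zero_dvd_iff.mp (h i j))
  obtain ⟨π, hπ, hπd⟩ := WfDvdMonoid.exists_irreducible_factor hu hd0
  have hprime : Prime π := hπ.prime
  by_cases hall : ∀ i, π ∣ cx i
  · exact hπ.not_isUnit (hx π hall)
  · push Not at hall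
    obtain ⟨i, hi⟩ := hall
    apply hπ.not_isUnit
    apply hy
    intro j
    have h1 := (hπd.trans (h i j))
    rcases hprime.dvd_or_dvd h1 with h2 | h2
    · exact absurd (hprime.dvd_of_dvd_pow h2) hi
    · exact hprime.dvd_of_dvd_pow h2

lemma prod_single_pow {R : Type} [CommMonoid R] {m : ℕ} (x : Fin m → R) (i : Fin m) (a : ℕ) :
    ∏ l, x l ^ (Pi.single i a : Fin m → ℕ) l = x i ^ a := by
  rw [Finset.prod_eq_single i]
  · simp
  · intro l _ hl
    simp [hl]
  · intro h
    exact absurd (Finset.mem_univ i) h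

/-- Lower bound for the height of the Segre-Veronese image. -/
lemma height_lower {F : Type} [Field F] {n a b : ℕ} {cx cy : Fin (n + 1) → F[X]}
    (hx : Prim cx) (hy : Prim cy) (x y : Fin (n + 1) → RatFunc F) (w t : RatFunc F)
    (hw : w ≠ 0) (ht : t ≠ 0) (hx' : ∀ i, x i = w * algebraMap F[X] (RatFunc F) (cx i))
    (hy' : ∀ i, y i = t * algebraMap F[X] (RatFunc F) (cy i)) :
    a * maxDeg cx + b * maxDeg cy ≤ height F (segreVeronese n a b x y) := by
  classical
  -- the set of degree bounds is nonempty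
  have hA : ∀ i, (cx i).natDegree ≤ maxDeg cx := fun i =>
    Finset.le_sup (f := fun i => (cx i).natDegree) (Finset.mem_univ i)
  have hC : ∀ i, (cy i).natDegree ≤ maxDeg cy := fun i =>
    Finset.le_sup (f := fun i => (cy i).natDegree) (Finset.mem_univ i)
  have hne : {d : ℕ | ∃ (l : RatFunc F) (c : BiExp n a b → F[X]), l ≠ 0 ∧
      (∀ i, algebraMap F[X] (RatFunc F) (c i) = l * segreVeronese n a b x y i) ∧
      ∀ i, (c i).natDegree ≤ d}.Nonempty := by
    refine ⟨a * maxDeg cx + b * maxDeg cy, (w ^ a * t ^ b)⁻¹,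
      fun m => (∏ i, (cx i) ^ m.1.1 i) * ∏ i, (cy i) ^ m.1.2 i, ?_, ?_, ?_⟩
    · exact inv_ne_zero (mul_ne_zero (pow_ne_zero _ hw) (pow_ne_zero _ ht))
    · intro m
      obtain ⟨m, hm1, hm2⟩ := m
      simp only [segreVeronese, hx', hy', map_mul, map_prod, map_pow, mul_pow,
        Finset.prod_mul_distrib, Finset.prod_pow_eq_pow_sum, hm1, hm2]
      field_simp
    · intro m
      obtain ⟨m, hm1, hm2⟩ := m
      simp only
      refine (Polynomial.natDegree_mul_le).trans (Nat.add_le_add ?_ ?_)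
      · refine (Polynomial.natDegree_prod_le _ _).trans ?_
        have : ∀ i ∈ Finset.univ, ((cx i) ^ m.1 i).natDegree ≤ m.1 i * maxDeg cx := by
          intro i _
          exact (Polynomial.natDegree_pow_le).trans (Nat.mul_le_mul_left _ (hA i))
        refine (Finset.sum_le_sum this).trans ?_
        rw [← Finset.sum_mul, hm1]
      · refine (Polynomial.natDegree_prod_le _ _).trans ?_
        have : ∀ i ∈ Finset.univ, ((cy i) ^ m.2 i).natDegree ≤ m.2 i * maxDeg cy := by
          intro i _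
          exact (Polynomial.natDegree_pow_le).trans (Nat.mul_le_mul_left _ (hC i))
        refine (Finset.sum_le_sum this).trans ?_
        rw [← Finset.sum_mul, hm2]
  obtain ⟨l, c, hl, hc, hdeg⟩ := Nat.sInf_mem hne
  have hheight : sInf {d : ℕ | ∃ (l : RatFunc F) (c : BiExp n a b → F[X]), l ≠ 0 ∧
      (∀ i, algebraMap F[X] (RatFunc F) (c i) = l * segreVeronese n a b x y i) ∧
      ∀ i, (c i).natDegree ≤ d} = height F (segreVeronese n a b x y) := rfl
  rw [hheight] at hdeg
  -- the coordinates `x_i^a y_j^b`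
  have hinj : Function.Injective (algebraMap F[X] (RatFunc F)) :=
    IsFractionRing.injective F[X] (RatFunc F)
  obtain ⟨e, he⟩ : ∃ e : RatFunc F, e = l * (w ^ a * t ^ b) := ⟨_, rfl⟩
  have he0 : e ≠ 0 := by
    rw [he]
    exact mul_ne_zero hl (mul_ne_zero (pow_ne_zero _ hw) (pow_ne_zero _ ht))
  obtain ⟨M, hM⟩ : ∃ M : Fin (n + 1) → Fin (n + 1) → BiExp n a b,
      ∀ i j, (M i j).1 = (Pi.single i a, Pi.single j b) :=
    ⟨fun i j => ⟨(Pi.single i a, Pi.single j b), by simp, by simp⟩, fun i j => rfl⟩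
  have hcM : ∀ i j, algebraMap F[X] (RatFunc F) (c (M i j))
      = e * algebraMap F[X] (RatFunc F) (cx i ^ a * cy j ^ b) := by
    intro i j
    rw [hc, segreVeronese, hM, he]
    simp only
    rw [prod_single_pow, prod_single_pow, hx', hy', map_mul, map_pow, map_pow, mul_pow, mul_pow]
    ring
  have hden : (e.denom) ≠ 0 := RatFunc.denom_ne_zero e
  have hdmap : algebraMap F[X] (RatFunc F) e.denom ≠ 0 := by simpa using hden
  have hnum : e * algebraMap F[X] (RatFunc F) e.denom = algebraMap F[X] (RatFunc F) e.num := by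
    have := RatFunc.num_div_denom e
    field_simp at this
    linear_combination -this
  have hrel : ∀ i j, c (M i j) * e.denom = e.num * (cx i ^ a * cy j ^ b) := by
    intro i j
    apply hinj
    rw [map_mul, map_mul (algebraMap F[X] (RatFunc F)) e.num, hcM i j, ← hnum]
    ring
  have hcop : IsCoprime e.num e.denom := RatFunc.isCoprime_num_denom e
  have hunit : IsUnit e.denom := by
    apply unit_of_dvd hx hy a b
    intro i j
    have : e.denom ∣ e.num * (cx i ^ a * cy j ^ b) := ⟨c (M i j), by rw [← hrel i j, mul_comm]⟩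
    exact hcop.symm.dvd_of_dvd_mul_left this
  have hnum0 : e.num ≠ 0 := by
    intro h0
    rw [h0, map_zero] at hnum
    exact (mul_ne_zero he0 hdmap) hnum
  obtain ⟨i, hi, hi'⟩ := exists_maxDeg cx hx.ne_zero
  obtain ⟨j, hj, hj'⟩ := exists_maxDeg cy hy.ne_zero
  have hprod0 : cx i ^ a * cy j ^ b ≠ 0 := mul_ne_zero (pow_ne_zero a hi) (pow_ne_zero b hj)
  have hcM0 : c (M i j) ≠ 0 := by
    intro h0
    have := hrel i j
    rw [h0, zero_mul] at this
    exact mul_ne_zero hnum0 hprod0 this.symm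
  have hd := congrArg Polynomial.natDegree (hrel i j)
  rw [Polynomial.natDegree_mul hcM0 hden, Polynomial.natDegree_mul hnum0 hprod0,
    Polynomial.natDegree_mul (pow_ne_zero a hi) (pow_ne_zero b hj), Polynomial.natDegree_pow,
    Polynomial.natDegree_pow, hi', hj', Polynomial.natDegree_eq_zero_of_isUnit hunit] at hd
  have := hdeg (M i j)
  omega

/-- `p`-th powers of a primitive vector form a primitive vector. -/
lemma Prim.pow {F : Type} [Field F] {m : ℕ} {c : Fin m → F[X]} (h : Prim c) (p : ℕ) :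
    Prim (fun i => c i ^ p) := by
  intro d hd
  by_contra hu
  have hd0 : d ≠ 0 := by
    rintro rfl
    obtain ⟨i, hi, _⟩ := exists_maxDeg c h.ne_zero
    exact pow_ne_zero p hi (zero_dvd_iff.mp (hd i))
  obtain ⟨π, hπ, hπd⟩ := WfDvdMonoid.exists_irreducible_factor hu hd0
  exact hπ.not_isUnit (h π (fun i => hπ.prime.dvd_of_dvd_pow (hπd.trans (hd i))))

lemma maxDeg_pow {F : Type} [Field F] {m : ℕ} (c : Fin m → F[X]) (p : ℕ) :
    p * maxDeg c ≤ maxDeg (fun i => c i ^ p) := by
  by_cases hc : c = 0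
  · subst hc
    have h0 : maxDeg (0 : Fin m → F[X]) = 0 :=
      Nat.le_zero.mp (Finset.sup_le (fun i _ => by simp))
    rw [h0, mul_zero]
    exact Nat.zero_le _
  · obtain ⟨i, hi, hi'⟩ := exists_maxDeg c hc
    have h1 : (c i ^ p).natDegree ≤ maxDeg (fun i => c i ^ p) :=
      Finset.le_sup (f := fun i => (c i ^ p).natDegree) (Finset.mem_univ i)
    rw [Polynomial.natDegree_pow, hi'] at h1
    exact h1

/-- The fibre of `V` over `x`, a linear space in characteristic `p`. -/
def fib {K : Type} [Field K] (p : ℕ) [Fact p.Prime] [CharP K p] {n : ℕ} (x : Fin (n + 1) → K) :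
    Submodule K (Fin (n + 1) → K) where
  carrier := {y | ∑ i, x i * y i ^ p = 0}
  add_mem' := by
    intro y z hy hz
    simp only [Set.mem_ofPred_eq] at hy hz ⊢
    have : ∀ i, x i * (y + z) i ^ p = x i * y i ^ p + x i * z i ^ p := by
      intro i
      rw [Pi.add_apply, add_pow_char, mul_add]
    simp only [this, Finset.sum_add_distrib, hy, hz, add_zero]
  zero_mem' := by
    have hp : p ≠ 0 := (Fact.out : p.Prime).ne_zero
    simp [hp]
  smul_mem' := by
    intro c y hy
    simp only [Set.mem_ofPred_eq] at hy ⊢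
    have : ∀ i, x i * (c • y) i ^ p = c ^ p * (x i * y i ^ p) := by
      intro i
      rw [Pi.smul_apply, smul_eq_mul, mul_pow]
      ring
    simp only [this, ← Finset.mul_sum, hy, mul_zero]

lemma mem_fib {K : Type} [Field K] {p : ℕ} [Fact p.Prime] [CharP K p] {n : ℕ}
    {x y : Fin (n + 1) → K} : y ∈ fib p x ↔ OnV n p x y := Iff.rfl

/-- Either the fibre has codimension at least two or `x` is a Frobenius point. -/
lemma fib_cases {K : Type} [Field K] (p : ℕ) [Fact p.Prime] [CharP K p] {n : ℕ}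
    (x : Fin (n + 1) → K) (hx : x ≠ 0) :
    Module.finrank K (fib p x) ≤ n - 1 ∨
      ∃ (a : Fin (n + 1) → K) (w : K), a ≠ 0 ∧ w ≠ 0 ∧ (∀ i, x i = w * a i ^ p) ∧
        ∀ y ∈ fib p x, ∑ i, a i * y i = 0 := by
  classical
  have hp0 : p ≠ 0 := (Fact.out : p.Prime).ne_zero
  by_cases hfr : Module.finrank K (fib p x) ≤ n - 1
  · exact Or.inl hfr
  · right
    have hne : fib p x < ⊤ := by
      refine lt_top_iff_ne_top.mpr ?_
      intro htop
      apply hx
      funext i
      have h1 : (Pi.single i 1 : Fin (n + 1) → K) ∈ fib p x := by rw [htop]; trivial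
      rw [mem_fib, OnV, Finset.sum_eq_single i] at h1
      · simpa using h1
      · intro l _ hl
        simp [hl, hp0]
      · intro h
        exact absurd (Finset.mem_univ i) h
    obtain ⟨f, hf0, hf⟩ := Submodule.exists_le_ker_of_lt_top _ hne
    have hlt : Module.finrank K (fib p x) < n + 1 := by
      have := Submodule.finrank_lt hne.ne
      rw [Module.finrank_fin_fun] at this
      exact this
    have hker : Module.finrank K (LinearMap.ker f) = n := by
      have h1 := LinearMap.finrank_range_add_finrank_ker f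
      rw [LinearMap.range_eq_top.mpr (LinearMap.surjective hf0), finrank_top,
        Module.finrank_self, Module.finrank_fin_fun] at h1
      omega
    have heq : fib p x = LinearMap.ker f := by
      apply Submodule.eq_of_le_of_finrank_le hf
      omega
    obtain ⟨a, ha⟩ : ∃ a : Fin (n + 1) → K, ∀ i, a i = f (Pi.single i 1) :=
      ⟨fun i => f (Pi.single i 1), fun i => rfl⟩
    have hfa : ∀ y, f y = ∑ i, a i * y i := by
      intro y
      have h1 : y = ∑ i, y i • (Pi.single i 1 : Fin (n + 1) → K) := by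
        funext j
        simp [Finset.sum_apply, Pi.single_apply]
      conv_lhs => rw [h1]
      rw [map_sum]
      apply Finset.sum_congr rfl
      intro i _
      rw [map_smul, ha, smul_eq_mul, mul_comm]
    have ha0 : a ≠ 0 := by
      intro h0
      apply hf0
      apply LinearMap.ext
      intro y
      rw [hfa, h0]
      simp
    obtain ⟨k, hk⟩ : ∃ k, a k ≠ 0 := by
      by_contra hcon
      push Not at hcon
      exact ha0 (_root_.funext hcon)
    have hcross : ∀ i, x i * a k ^ p = x k * a i ^ p := by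
      intro i
      by_cases hik : i = k
      · rw [hik]
      · have h1 : (Pi.single i (a k) - Pi.single k (a i) : Fin (n + 1) → K) ∈ fib p x := by
          rw [heq, LinearMap.mem_ker, hfa]
          simp only [Pi.sub_apply, mul_sub, Finset.sum_sub_distrib]
          rw [Finset.sum_eq_single i, Finset.sum_eq_single k]
          · simp
            ring
          · intro l _ hl
            simp [hl]
          · intro h
            exact absurd (Finset.mem_univ k) h
          · intro l _ hl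
            simp [hl]
          · intro h
            exact absurd (Finset.mem_univ i) h
        rw [mem_fib, OnV] at h1
        simp only [Pi.sub_apply, sub_pow_char, mul_sub, Finset.sum_sub_distrib] at h1
        rw [Finset.sum_eq_single i, Finset.sum_eq_single k] at h1
        · simp only [Pi.single_eq_same] at h1
          exact sub_eq_zero.mp h1
        · intro l _ hl
          simp [hl, hp0]
        · intro h
          exact absurd (Finset.mem_univ k) h
        · intro l _ hl
          simp [hl, hp0]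
        · intro h
          exact absurd (Finset.mem_univ i) h
    have hakp : a k ^ p ≠ 0 := pow_ne_zero _ hk
    have hxk : x k ≠ 0 := by
      intro h0
      apply hx
      funext i
      have := hcross i
      rw [h0, zero_mul] at this
      exact (mul_eq_zero.mp this).resolve_right hakp
    refine ⟨a, x k / a k ^ p, ha0, div_ne_zero hxk hakp, ?_, ?_⟩
    · intro i
      have := hcross i
      field_simp
      linear_combination this
    · intro y hy
      rw [← hfa]
      exact LinearMap.mem_ker.mp (hf hy)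

lemma fib_smul {K : Type} [Field K] (p : ℕ) [Fact p.Prime] [CharP K p] {n : ℕ}
    (x x' : Fin (n + 1) → K) (l : K) (hl : l ≠ 0) (h : ∀ i, x' i = l * x i) :
    fib p x' = fib p x := by
  ext y
  rw [mem_fib, mem_fib, OnV, OnV]
  have : ∑ i, x' i * y i ^ p = l * ∑ i, x i * y i ^ p := by
    rw [Finset.mul_sum]
    apply Finset.sum_congr rfl
    intro i _
    rw [h, mul_assoc]
  rw [this]
  constructor
  · intro h1
    exact (mul_eq_zero.mp h1).resolve_left hl
  · intro h1
    rw [h1, mul_zero]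

/-- the hyperplane orthogonal to `a` -/
def orth {K : Type} [Field K] {n : ℕ} (a : Fin (n + 1) → K) : Submodule K (Fin (n + 1) → K) where
  carrier := {y | ∑ i, a i * y i = 0}
  add_mem' := by
    intro y z hy hz
    simp only [Set.mem_ofPred_eq] at hy hz ⊢
    simp only [Pi.add_apply, mul_add, Finset.sum_add_distrib, hy, hz, add_zero]
  zero_mem' := by simp
  smul_mem' := by
    intro c y hy
    simp only [Set.mem_ofPred_eq] at hy ⊢
    have : ∀ i, a i * (c • y) i = c * (a i * y i) := by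
      intro i
      rw [Pi.smul_apply, smul_eq_mul]
      ring
    simp only [this, ← Finset.mul_sum, hy, mul_zero]

lemma mem_orth {K : Type} [Field K] {n : ℕ} {a y : Fin (n + 1) → K} :
    y ∈ orth a ↔ ∑ i, a i * y i = 0 := Iff.rfl

lemma finrank_orth {K : Type} [Field K] {n : ℕ} (a : Fin (n + 1) → K) (ha : a ≠ 0) :
    Module.finrank K (orth a) ≤ n := by
  classical
  have hne : orth a ≠ ⊤ := by
    intro htop
    apply ha
    funext i
    have h1 : (Pi.single i 1 : Fin (n + 1) → K) ∈ orth a := by rw [htop]; trivial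
    rw [mem_orth, Finset.sum_eq_single i] at h1
    · simpa using h1
    · intro l _ hl
      simp [hl]
    · intro h
      exact absurd (Finset.mem_univ i) h
  have := Submodule.finrank_lt hne
  rw [Module.finrank_fin_fun] at this
  omega

/-- points with proportional representatives are equal -/
lemma pt_eq {K : Type} [Field K] {n : ℕ} (P Q : ProjPt K n) (v : Fin (n + 1) → K) (a b : K)
    (ha : a ≠ 0) (_hb : b ≠ 0) (h1 : ∀ i, v i = a * P.rep i) (h2 : ∀ i, v i = b * Q.rep i) :
    P = Q := by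
  rw [← P.mk_rep, ← Q.mk_rep, Projectivization.mk_eq_mk_iff']
  refine ⟨b / a, ?_⟩
  funext i
  rw [Pi.smul_apply, smul_eq_mul]
  have h3 : a * P.rep i = b * Q.rep i := by rw [← h1, ← h2]
  field_simp
  exact h3.symm

/-- the factor bounding a sum over polynomial vectors -/
noncomputable def fac (F : Type) (d : ℕ) (σ : ℝ) : ENNReal :=
  ENNReal.ofReal ((Nat.card F : ℝ) ^ (d : ℝ)) *
    (1 - ENNReal.ofReal ((Nat.card F : ℝ) ^ ((d : ℝ) - σ)))⁻¹

lemma card_one_le (F : Type) [Field F] [Finite F] : (1 : ℝ) < (Nat.card F : ℝ) := by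
  have : 1 < Nat.card F := Finite.one_lt_card
  exact_mod_cast this

/-- The part of the zeta function where the fibre has codimension at least two. -/
lemma tsum_B_le {F : Type} [Field F] [Finite F] (p : ℕ) [Fact p.Prime] [CharP F p] {n : ℕ}
    [CharP (RatFunc F) p] (S : Set (BiPoly (RatFunc F) n)) (s : ℝ) (hs : 0 ≤ s) :
    ∑' P : {P : RatPts (RatFunc F) n p S //
        Module.finrank (RatFunc F) (fib p P.1.1.rep) ≤ n - 1},
      ENNReal.ofReal (zetaTerm s P.1)
      ≤ fac F (n + 1) (s * n) * fac F (n - 1) (s * ((n + 1 - p : ℕ) : ℝ)) := by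
  classical
  have hq1 : (1 : ℝ) ≤ (Nat.card F : ℝ) := (card_one_le F).le
  have hq0 : (0 : ℝ) < (Nat.card F : ℝ) := by linarith
  have hinj : Function.Injective (algebraMap F[X] (RatFunc F)) :=
    IsFractionRing.injective F[X] (RatFunc F)
  -- primitive representatives
  have hprim : ∀ R : ProjPt (RatFunc F) n, ∃ (b : RatFunc F) (c : Fin (n + 1) → F[X]),
      b ≠ 0 ∧ (∀ i, algebraMap F[X] (RatFunc F) (c i) = b * R.rep i) ∧ Prim c :=
    fun R => exists_primitive R.rep R.rep_nonzero
  choose b c hb hc hcp using hprim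
  have hfib : ∀ P : ProjPt (RatFunc F) n,
      fib p (fun i => algebraMap F[X] (RatFunc F) (c P i)) = fib p P.rep := fun P =>
    fib_smul p _ _ (b P) (hb P) (hc P)
  obtain ⟨Φ, hΦ1, hΦ2⟩ : ∃ Φ : {P : RatPts (RatFunc F) n p S //
        Module.finrank (RatFunc F) (fib p P.1.1.rep) ≤ n - 1} →
      (Σ cx : {c : Fin (n + 1) → F[X] // Module.finrank (RatFunc F)
        (fib p (fun i => algebraMap F[X] (RatFunc F) (c i))) ≤ n - 1},
        PolyIn (fib p (fun i => algebraMap F[X] (RatFunc F) (cx.1 i)))),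
      (∀ P, (Φ P).1.1 = c P.1.1.1) ∧ (∀ P, (Φ P).2.1 = c P.1.1.2) := by
    refine ⟨fun P => ⟨⟨c P.1.1.1, by rw [hfib]; exact P.2⟩, ⟨c P.1.1.2, ?_⟩⟩,
      fun P => rfl, fun P => rfl⟩
    simp only
    rw [hfib]
    have h1 : (fun i => algebraMap F[X] (RatFunc F) (c P.1.1.2 i)) = b P.1.1.2 • P.1.1.2.rep := by
      funext i
      rw [hc]
      rfl
    rw [h1]
    exact (fib p P.1.1.1.rep).smul_mem _ (mem_fib.mpr P.1.2.1)
  have hΦinj : Function.Injective Φ := by
    intro P P' h
    have h1 : c P.1.1.1 = c P'.1.1.1 := by rw [← hΦ1, ← hΦ1, h]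
    have h2 : c P.1.1.2 = c P'.1.1.2 := by rw [← hΦ2, ← hΦ2, h]
    apply Subtype.ext
    apply Subtype.ext
    apply Prod.ext
    · apply pt_eq _ _ (fun i => algebraMap F[X] (RatFunc F) (c P.1.1.1 i)) _ _ (hb P.1.1.1)
        (hb P'.1.1.1) (hc P.1.1.1)
      intro i
      rw [h1]
      exact hc P'.1.1.1 i
    · apply pt_eq _ _ (fun i => algebraMap F[X] (RatFunc F) (c P.1.1.2 i)) _ _ (hb P.1.1.2)
        (hb P'.1.1.2) (hc P.1.1.2)
      intro i
      rw [h2]
      exact hc P'.1.1.2 i
  have hterm : ∀ P : {P : RatPts (RatFunc F) n p S //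
        Module.finrank (RatFunc F) (fib p P.1.1.rep) ≤ n - 1},
      ENNReal.ofReal (zetaTerm s P.1) ≤
        ENNReal.ofReal ((Nat.card F : ℝ) ^ (-((s * n) * (maxDeg (Φ P).1.1 : ℝ)))) *
        ENNReal.ofReal ((Nat.card F : ℝ) ^ (-((s * ((n + 1 - p : ℕ) : ℝ)) *
          (maxDeg (Φ P).2.1 : ℝ)))) := by
    intro P
    rw [← ENNReal.ofReal_mul (by positivity), ← Real.rpow_add hq0]
    apply ENNReal.ofReal_le_ofReal
    rw [zetaTerm]
    apply Real.rpow_le_rpow_of_exponent_le hq1
    have h1 := height_lower (a := n) (b := n + 1 - p) (hcp P.1.1.1) (hcp P.1.1.2) P.1.1.1.rep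
      P.1.1.2.rep (b P.1.1.1)⁻¹ (b P.1.1.2)⁻¹ (inv_ne_zero (hb _)) (inv_ne_zero (hb _))
      (fun i => by rw [hc]; have := hb P.1.1.1; field_simp)
      (fun i => by rw [hc]; have := hb P.1.1.2; field_simp)
    rw [← hΦ1, ← hΦ2] at h1
    have h2 : ((n * maxDeg (Φ P).1.1 + (n + 1 - p) * maxDeg (Φ P).2.1 : ℕ) : ℝ)
        ≤ (hgt P.1 : ℝ) := by exact_mod_cast h1
    rw [Nat.cast_add, Nat.cast_mul, Nat.cast_mul] at h2
    have h3 := mul_le_mul_of_nonneg_left h2 hs
    linarith
  refine (ENNReal.tsum_le_tsum hterm).trans ?_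
  refine (ENNReal.tsum_comp_le_tsum_of_injective hΦinj (fun v =>
    ENNReal.ofReal ((Nat.card F : ℝ) ^ (-((s * n) * (maxDeg v.1.1 : ℝ)))) *
        ENNReal.ofReal ((Nat.card F : ℝ) ^ (-((s * ((n + 1 - p : ℕ) : ℝ)) *
          (maxDeg v.2.1 : ℝ)))))).trans ?_
  rw [ENNReal.tsum_sigma' ]
  simp only [ENNReal.tsum_mul_left]
  have hinner : ∀ cx : {c : Fin (n + 1) → F[X] // Module.finrank (RatFunc F)
        (fib p (fun i => algebraMap F[X] (RatFunc F) (c i))) ≤ n - 1},
      ENNReal.ofReal ((Nat.card F : ℝ) ^ (-((s * n) * (maxDeg cx.1 : ℝ)))) *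
      ∑' cy : PolyIn (fib p (fun i => algebraMap F[X] (RatFunc F) (cx.1 i))),
        ENNReal.ofReal ((Nat.card F : ℝ) ^ (-((s * ((n + 1 - p : ℕ) : ℝ)) * (maxDeg cy.1 : ℝ))))
      ≤ ENNReal.ofReal ((Nat.card F : ℝ) ^ (-((s * n) * (maxDeg cx.1 : ℝ)))) *
        fac F (n - 1) (s * ((n + 1 - p : ℕ) : ℝ)) := by
    intro cx
    exact mul_le_mul_right (tsum_polyIn_le _ cx.2 _) _
  refine (ENNReal.tsum_le_tsum hinner).trans ?_
  rw [ENNReal.tsum_mul_right]
  apply mul_le_mul_left
  -- the sum over cx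
  have hcx := tsum_polyIn_le (F := F) (m := n + 1) (d := n + 1) ⊤
    (by rw [finrank_top, Module.finrank_fin_fun]) (s * n)
  refine le_trans ?_ hcx
  exact ENNReal.tsum_comp_le_tsum_of_injective
    (f := fun cx : {c : Fin (n + 1) → F[X] // Module.finrank (RatFunc F)
        (fib p (fun i => algebraMap F[X] (RatFunc F) (c i))) ≤ n - 1} =>
      (⟨cx.1, trivial⟩ : PolyIn (⊤ : Submodule (RatFunc F) (Fin (n + 1) → RatFunc F))))
    (fun x y h => Subtype.ext (congrArg (fun v => v.1) h))
    (fun c => ENNReal.ofReal ((Nat.card F : ℝ) ^ (-((s * n) * (maxDeg c.1 : ℝ)))))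

/-- The part of the zeta function over the Frobenius points. -/
lemma tsum_A_le {F : Type} [Field F] [Finite F] (p : ℕ) [Fact p.Prime] [CharP F p] {n : ℕ}
    [CharP (RatFunc F) p] (S : Set (BiPoly (RatFunc F) n)) (s : ℝ) (hs : 0 ≤ s) :
    ∑' P : {P : RatPts (RatFunc F) n p S //
        ¬ Module.finrank (RatFunc F) (fib p P.1.1.rep) ≤ n - 1},
      ENNReal.ofReal (zetaTerm s P.1)
      ≤ fac F (n + 1) (s * (n * p)) * fac F n (s * ((n + 1 - p : ℕ) : ℝ)) := by
  classical
  have hp : p ≠ 0 := (Fact.out : p.Prime).ne_zero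
  have hq1 : (1 : ℝ) ≤ (Nat.card F : ℝ) := (card_one_le F).le
  have hq0 : (0 : ℝ) < (Nat.card F : ℝ) := by linarith
  have hinj : Function.Injective (algebraMap F[X] (RatFunc F)) :=
    IsFractionRing.injective F[X] (RatFunc F)
  have hprim : ∀ R : ProjPt (RatFunc F) n, ∃ (b : RatFunc F) (c : Fin (n + 1) → F[X]),
      b ≠ 0 ∧ (∀ i, algebraMap F[X] (RatFunc F) (c i) = b * R.rep i) ∧ Prim c :=
    fun R => exists_primitive R.rep R.rep_nonzero
  choose b c hb hc hcp using hprim
  have hfrob : ∀ P : {P : RatPts (RatFunc F) n p S //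
        ¬ Module.finrank (RatFunc F) (fib p P.1.1.rep) ≤ n - 1},
      ∃ (ca : Fin (n + 1) → F[X]) (w : RatFunc F), Prim ca ∧ w ≠ 0 ∧
        (∀ i, P.1.1.1.rep i = w * algebraMap F[X] (RatFunc F) (ca i ^ p)) ∧
        P.1.1.2.rep ∈ orth (fun i => algebraMap F[X] (RatFunc F) (ca i)) := by
    intro P
    rcases fib_cases p P.1.1.1.rep P.1.1.1.rep_nonzero with h | ⟨a, w, ha, hw, h1, h2⟩
    · exact absurd h P.2
    · obtain ⟨l, ca, hl, hca, hprim⟩ := exists_primitive a ha
      refine ⟨ca, w / l ^ p, hprim, div_ne_zero hw (pow_ne_zero _ hl), ?_, ?_⟩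
      · intro i
        rw [h1 i, map_pow, hca i, mul_pow]
        field_simp
      · rw [mem_orth]
        have h3 := h2 P.1.1.2.rep (mem_fib.mpr P.1.2.1)
        have h4 : ∑ i, algebraMap F[X] (RatFunc F) (ca i) * P.1.1.2.rep i
            = l * ∑ i, a i * P.1.1.2.rep i := by
          rw [Finset.mul_sum]
          apply Finset.sum_congr rfl
          intro i _
          rw [hca i, mul_assoc]
        rw [h4, h3, mul_zero]
  choose ca w hca hw hx hy using hfrob
  have hane : ∀ P, (fun i => algebraMap F[X] (RatFunc F) (ca P i)) ≠ 0 := by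
    intro P h0
    apply (hca P).ne_zero
    funext i
    exact hinj (by rw [Pi.zero_apply, map_zero]; exact congrFun h0 i)
  obtain ⟨Φ, hΦ1, hΦ2⟩ : ∃ Φ : {P : RatPts (RatFunc F) n p S //
        ¬ Module.finrank (RatFunc F) (fib p P.1.1.rep) ≤ n - 1} →
      (Σ ca : {c : Fin (n + 1) → F[X] //
        (fun i => algebraMap F[X] (RatFunc F) (c i)) ≠ 0},
        PolyIn (orth (fun i => algebraMap F[X] (RatFunc F) (ca.1 i)))),
      (∀ P, (Φ P).1.1 = ca P) ∧ (∀ P, (Φ P).2.1 = c P.1.1.2) := by
    refine ⟨fun P => ⟨⟨ca P, hane P⟩, ⟨c P.1.1.2, ?_⟩⟩, fun P => rfl, fun P => rfl⟩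
    simp only
    have h1 : (fun i => algebraMap F[X] (RatFunc F) (c P.1.1.2 i)) = b P.1.1.2 • P.1.1.2.rep := by
      funext i
      rw [hc]
      rfl
    rw [h1]
    exact Submodule.smul_mem _ _ (hy P)
  have hΦinj : Function.Injective Φ := by
    intro P P' h
    have h1 : ca P = ca P' := by rw [← hΦ1, ← hΦ1, h]
    have h2 : c P.1.1.2 = c P'.1.1.2 := by rw [← hΦ2, ← hΦ2, h]
    apply Subtype.ext
    apply Subtype.ext
    apply Prod.ext
    · apply pt_eq _ _ (fun i => algebraMap F[X] (RatFunc F) (ca P i ^ p)) _ _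
        (inv_ne_zero (hw P)) (inv_ne_zero (hw P'))
      · intro i
        rw [hx P i]
        have := hw P
        field_simp
      · intro i
        rw [h1, hx P' i]
        have := hw P'
        field_simp
    · apply pt_eq _ _ (fun i => algebraMap F[X] (RatFunc F) (c P.1.1.2 i)) _ _ (hb P.1.1.2)
        (hb P'.1.1.2) (hc P.1.1.2)
      intro i
      rw [h2]
      exact hc P'.1.1.2 i
  have hterm : ∀ P : {P : RatPts (RatFunc F) n p S //
        ¬ Module.finrank (RatFunc F) (fib p P.1.1.rep) ≤ n - 1},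
      ENNReal.ofReal (zetaTerm s P.1) ≤
        ENNReal.ofReal ((Nat.card F : ℝ) ^ (-((s * (n * p)) * (maxDeg (Φ P).1.1 : ℝ)))) *
        ENNReal.ofReal ((Nat.card F : ℝ) ^ (-((s * ((n + 1 - p : ℕ) : ℝ)) *
          (maxDeg (Φ P).2.1 : ℝ)))) := by
    intro P
    rw [← ENNReal.ofReal_mul (by positivity), ← Real.rpow_add hq0]
    apply ENNReal.ofReal_le_ofReal
    rw [zetaTerm]
    apply Real.rpow_le_rpow_of_exponent_le hq1
    have h1 := height_lower (a := n) (b := n + 1 - p) ((hca P).pow p) (hcp P.1.1.2) P.1.1.1.rep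
      P.1.1.2.rep (w P) (b P.1.1.2)⁻¹ (hw P) (inv_ne_zero (hb _))
      (hx P) (fun i => by rw [hc]; have := hb P.1.1.2; field_simp)
    have h0 := Nat.mul_le_mul_left n (maxDeg_pow (ca P) p)
    rw [← hΦ2] at h1
    rw [← hΦ1] at h1 h0
    have h2 : ((n * (p * maxDeg (Φ P).1.1) + (n + 1 - p) * maxDeg (Φ P).2.1 : ℕ) : ℝ)
        ≤ (hgt P.1 : ℝ) := by
      have : n * (p * maxDeg (Φ P).1.1) + (n + 1 - p) * maxDeg (Φ P).2.1 ≤ hgt P.1 := by
        refine le_trans ?_ h1
        omega
      exact_mod_cast this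
    rw [Nat.cast_add, Nat.cast_mul, Nat.cast_mul, Nat.cast_mul] at h2
    have h3 := mul_le_mul_of_nonneg_left h2 hs
    linarith
  refine (ENNReal.tsum_le_tsum hterm).trans ?_
  refine (ENNReal.tsum_comp_le_tsum_of_injective hΦinj (fun v =>
    ENNReal.ofReal ((Nat.card F : ℝ) ^ (-((s * (n * p)) * (maxDeg v.1.1 : ℝ)))) *
        ENNReal.ofReal ((Nat.card F : ℝ) ^ (-((s * ((n + 1 - p : ℕ) : ℝ)) *
          (maxDeg v.2.1 : ℝ)))))).trans ?_
  rw [ENNReal.tsum_sigma' ]
  simp only [ENNReal.tsum_mul_left]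
  have hinner : ∀ cx : {c : Fin (n + 1) → F[X] //
        (fun i => algebraMap F[X] (RatFunc F) (c i)) ≠ 0},
      ENNReal.ofReal ((Nat.card F : ℝ) ^ (-((s * (n * p)) * (maxDeg cx.1 : ℝ)))) *
      ∑' cy : PolyIn (orth (fun i => algebraMap F[X] (RatFunc F) (cx.1 i))),
        ENNReal.ofReal ((Nat.card F : ℝ) ^ (-((s * ((n + 1 - p : ℕ) : ℝ)) * (maxDeg cy.1 : ℝ))))
      ≤ ENNReal.ofReal ((Nat.card F : ℝ) ^ (-((s * (n * p)) * (maxDeg cx.1 : ℝ)))) *
        fac F n (s * ((n + 1 - p : ℕ) : ℝ)) := by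
    intro cx
    exact mul_le_mul_right (tsum_polyIn_le _ (finrank_orth _ cx.2) _) _
  refine (ENNReal.tsum_le_tsum hinner).trans ?_
  rw [ENNReal.tsum_mul_right]
  apply mul_le_mul_left
  have hcx := tsum_polyIn_le (F := F) (m := n + 1) (d := n + 1) ⊤
    (by rw [finrank_top, Module.finrank_fin_fun]) (s * (n * p))
  refine le_trans ?_ hcx
  exact ENNReal.tsum_comp_le_tsum_of_injective
    (f := fun cx : {c : Fin (n + 1) → F[X] //
        (fun i => algebraMap F[X] (RatFunc F) (c i)) ≠ 0} =>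
      (⟨cx.1, trivial⟩ : PolyIn (⊤ : Submodule (RatFunc F) (Fin (n + 1) → RatFunc F))))
    (fun x y h => Subtype.ext (congrArg (fun v => v.1) h))
    (fun c => ENNReal.ofReal ((Nat.card F : ℝ) ^ (-((s * (n * p)) * (maxDeg c.1 : ℝ)))))

lemma fac_anti (F : Type) [Field F] [Finite F] (d : ℕ) {σ0 σ : ℝ} (h : σ0 ≤ σ) :
    fac F d σ ≤ fac F d σ0 := by
  unfold fac
  apply mul_le_mul_right
  apply ENNReal.inv_le_inv.mpr
  apply tsub_le_tsub_left
  apply ENNReal.ofReal_le_ofReal
  apply Real.rpow_le_rpow_of_exponent_le (card_one_le F).le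
  linarith

lemma fac_le (F : Type) [Field F] [Finite F] (d : ℕ) {σ : ℝ} (u : ℝ) (hu : 0 < u)
    (hσ : u = (σ - d) * Real.log (Nat.card F)) :
    fac F d σ ≤ ENNReal.ofReal ((Nat.card F : ℝ) ^ (d : ℝ) * ((1 + u) / u)) := by
  have hq1 := card_one_le F
  have hq0 : (0 : ℝ) < (Nat.card F : ℝ) := by linarith
  have hr : (Nat.card F : ℝ) ^ ((d : ℝ) - σ) = Real.exp (-u) := by
    rw [Real.rpow_def_of_pos hq0, hσ]
    congr 1
    ring
  have he : Real.exp (-u) ≤ 1 / (1 + u) := by
    rw [Real.exp_neg, ← one_div]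
    apply one_div_le_one_div_of_le (by linarith)
    have := Real.add_one_le_exp u
    linarith
  have h1 : u / (1 + u) ≤ 1 - Real.exp (-u) := by
    have : u / (1 + u) = 1 - 1 / (1 + u) := by field_simp; ring
    rw [this]
    linarith
  unfold fac
  rw [ENNReal.ofReal_mul (by positivity), hr]
  apply mul_le_mul_right
  have h2 : (1 : ENNReal) - ENNReal.ofReal (Real.exp (-u)) = ENNReal.ofReal (1 - Real.exp (-u)) := by
    rw [ENNReal.ofReal_sub _ (Real.exp_pos _).le, ENNReal.ofReal_one]
  rw [h2]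
  have h3 : (1 + u) / u = (u / (1 + u))⁻¹ := by rw [inv_div]
  rw [h3, ENNReal.ofReal_inv_of_pos (by positivity)]
  exact ENNReal.inv_le_inv.mpr (ENNReal.ofReal_le_ofReal h1)

lemma fac_ne_top (F : Type) [Field F] [Finite F] (d : ℕ) {σ : ℝ} (h : (d : ℝ) < σ) :
    fac F d σ ≠ ⊤ := by
  have hlog : 0 < Real.log (Nat.card F) := Real.log_pos (card_one_le F)
  have := fac_le F d (σ := σ) _ (mul_pos (by linarith : (0 : ℝ) < σ - d) hlog) rfl
  exact ne_top_of_le_ne_top ENNReal.ofReal_ne_top this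

/-- Upper bound for the height zeta function to the right of the critical exponent. -/
lemma zeta_bound {F : Type} [Field F] [Finite F] (p : ℕ) [Fact p.Prime] [CharP F p] {n : ℕ}
    (hn : p ≤ n) (S : Set (BiPoly (RatFunc F) n)) :
    ∃ C1 C2 c : ℝ, 0 ≤ C1 ∧ 0 ≤ C2 ∧ 0 < c ∧
      ∀ s : ℝ, (n : ℝ) / ((n : ℝ) + 1 - p) < s →
        Summable (fun P : RatPts (RatFunc F) n p S => zetaTerm s P) ∧
        ∑' P : RatPts (RatFunc F) n p S, zetaTerm s P
          ≤ C1 * ((1 + (s - (n : ℝ) / ((n : ℝ) + 1 - p)) * c) /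
              ((s - (n : ℝ) / ((n : ℝ) + 1 - p)) * c)) + C2 := by
  classical
  have hp2 : 2 ≤ p := (Fact.out : p.Prime).two_le
  have : CharP (RatFunc F) p := charP_of_injective_algebraMap (algebraMap F (RatFunc F)).injective p
  have hlog : 0 < Real.log (Nat.card F) := Real.log_pos (card_one_le F)
  have hnp : (p : ℝ) ≤ n := by exact_mod_cast hn
  have hp2' : (2 : ℝ) ≤ p := by exact_mod_cast hp2
  obtain ⟨b, hb⟩ : ∃ b : ℝ, b = (n : ℝ) + 1 - p := ⟨_, rfl⟩
  have hbn : ((n + 1 - p : ℕ) : ℝ) = b := by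
    rw [Nat.cast_sub (by omega), hb]
    push_cast
    ring
  have hb1 : 1 ≤ b := by linarith
  have hb2 : b ≤ n - 1 := by linarith
  obtain ⟨θ, hθ⟩ : ∃ θ : ℝ, θ = (n : ℝ) / b := ⟨_, rfl⟩
  rw [← hb, ← hθ]
  have hθb : θ * b = n := by rw [hθ]; field_simp
  have hθpos : 0 < θ := by rw [hθ]; apply div_pos <;> linarith
  -- θ n > n + 1
  have hθn : ((n + 1 : ℕ) : ℝ) < θ * n := by
    push_cast
    rw [hθ, div_mul_eq_mul_div, lt_div_iff₀ (by linarith)]
    nlinarith
  have hθnp : ((n + 1 : ℕ) : ℝ) < θ * (n * p) := by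
    refine hθn.trans_le ?_
    apply mul_le_mul_of_nonneg_left _ hθpos.le
    nlinarith
  have hθb' : ((n - 1 : ℕ) : ℝ) < θ * b := by
    rw [hθb]
    exact_mod_cast (by omega : n - 1 < n)
  have hA := fac_ne_top F (n + 1) hθnp
  have hB1 := fac_ne_top F (n + 1) hθn
  have hB2 := fac_ne_top F (n - 1) hθb'
  have hq0 : (0 : ℝ) < (Nat.card F : ℝ) := by linarith [card_one_le F]
  refine ⟨(fac F (n + 1) (θ * (n * p))).toReal * (Nat.card F : ℝ) ^ (n : ℝ),
    (fac F (n + 1) (θ * n) * fac F (n - 1) (θ * b)).toReal, b * Real.log (Nat.card F),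
    by positivity, by positivity, by positivity, ?_⟩
  intro s hs
  have hs0 : 0 ≤ s := (hθpos.trans hs).le
  obtain ⟨u, hu⟩ : ∃ u : ℝ, u = (s - θ) * (b * Real.log (Nat.card F)) := ⟨_, rfl⟩
  have hupos : 0 < u := by
    rw [hu]
    apply mul_pos (by linarith)
    positivity
  rw [← hu]
  have hZ : ∑' P : RatPts (RatFunc F) n p S, ENNReal.ofReal (zetaTerm s P)
      ≤ ENNReal.ofReal ((fac F (n + 1) (θ * (n * p))).toReal * (Nat.card F : ℝ) ^ (n : ℝ)
        * ((1 + u) / u) + (fac F (n + 1) (θ * n) * fac F (n - 1) (θ * b)).toReal) := by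
    have hsplit : ∑' P : RatPts (RatFunc F) n p S, ENNReal.ofReal (zetaTerm s P)
        = ∑' P : {P : RatPts (RatFunc F) n p S //
            Module.finrank (RatFunc F) (fib p P.1.1.rep) ≤ n - 1}, ENNReal.ofReal (zetaTerm s P.1)
          + ∑' P : {P : RatPts (RatFunc F) n p S //
            ¬ Module.finrank (RatFunc F) (fib p P.1.1.rep) ≤ n - 1},
              ENNReal.ofReal (zetaTerm s P.1) := by
      have h1 := tsum_subtype {P : RatPts (RatFunc F) n p S |
            Module.finrank (RatFunc F) (fib p P.1.1.rep) ≤ n - 1}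
            (fun P => ENNReal.ofReal (zetaTerm s P))
      have h2 := tsum_subtype {P : RatPts (RatFunc F) n p S |
            ¬ Module.finrank (RatFunc F) (fib p P.1.1.rep) ≤ n - 1}
            (fun P => ENNReal.ofReal (zetaTerm s P))
      have h3 : ∑' P : {P : RatPts (RatFunc F) n p S //
            Module.finrank (RatFunc F) (fib p P.1.1.rep) ≤ n - 1}, ENNReal.ofReal (zetaTerm s P.1)
          = ∑' P : RatPts (RatFunc F) n p S, Set.indicator {P : RatPts (RatFunc F) n p S |
            Module.finrank (RatFunc F) (fib p P.1.1.rep) ≤ n - 1}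
            (fun P => ENNReal.ofReal (zetaTerm s P)) P := h1
      have h4 : ∑' P : {P : RatPts (RatFunc F) n p S //
            ¬ Module.finrank (RatFunc F) (fib p P.1.1.rep) ≤ n - 1},
              ENNReal.ofReal (zetaTerm s P.1)
          = ∑' P : RatPts (RatFunc F) n p S, Set.indicator {P : RatPts (RatFunc F) n p S |
            ¬ Module.finrank (RatFunc F) (fib p P.1.1.rep) ≤ n - 1}
            (fun P => ENNReal.ofReal (zetaTerm s P)) P := h2
      rw [h3, h4, ← ENNReal.tsum_add]
      apply tsum_congr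
      intro P
      by_cases hP : Module.finrank (RatFunc F) (fib p P.1.1.rep) ≤ n - 1
      · rw [Set.indicator_of_mem (by exact hP), Set.indicator_of_notMem (by simpa using hP),
          add_zero]
      · rw [Set.indicator_of_notMem (by simpa using hP), Set.indicator_of_mem (by exact hP),
          zero_add]
    rw [hsplit]
    have hBB := tsum_B_le p S s hs0
    have hAA := tsum_A_le p S s hs0
    rw [hbn] at hBB hAA
    rw [ENNReal.ofReal_add (by positivity) (by positivity), add_comm]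
    apply add_le_add
    · refine hAA.trans ?_
      rw [mul_assoc, ENNReal.ofReal_mul (by positivity), ENNReal.ofReal_toReal hA]
      apply mul_le_mul'
      · apply fac_anti
        apply mul_le_mul_of_nonneg_right hs.le (by positivity)
      · apply fac_le F n u hupos
        rw [hu, ← hθb]
        ring
    · refine hBB.trans ?_
      rw [ENNReal.ofReal_toReal (ENNReal.mul_ne_top hB1 hB2)]
      apply mul_le_mul'
      · apply fac_anti
        apply mul_le_mul_of_nonneg_right hs.le (by positivity)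
      · apply fac_anti
        apply mul_le_mul_of_nonneg_right hs.le (by linarith)
  have hnn : ∀ P : RatPts (RatFunc F) n p S, 0 ≤ zetaTerm s P := fun P => by
    unfold zetaTerm
    positivity
  have hsum : Summable (fun P : RatPts (RatFunc F) n p S => zetaTerm s P) := by
    have h1 := ENNReal.summable_toReal (ne_top_of_le_ne_top ENNReal.ofReal_ne_top hZ)
    refine h1.congr (fun P => ?_)
    rw [ENNReal.toReal_ofReal (hnn P)]
  refine ⟨hsum, ?_⟩
  rw [← ENNReal.ofReal_tsum_of_nonneg hnn hsum] at hZ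
  exact (ENNReal.ofReal_le_ofReal_iff (by positivity)).mp hZ

/-- A meromorphic function which blows up along the real half line to the right of `θ` but with
`(s - θ)^2 g(s) → 0` has a simple pole at `θ`. -/
lemma order_eq_neg_one (g : ℂ → ℂ) (θ : ℝ) (hg : MeromorphicAt g (θ : ℂ))
    (h1 : Tendsto (fun s : ℝ => ‖g (s : ℂ)‖) (𝓝[>] θ) atTop)
    (h2 : Tendsto (fun s : ℝ => (s - θ) ^ 2 * ‖g (s : ℂ)‖) (𝓝[>] θ) (𝓝 0)) :
    meromorphicOrderAt g (θ : ℂ) = -1 := by
  have hmap : Tendsto (fun s : ℝ => (s : ℂ)) (𝓝[>] θ) (𝓝[≠] (θ : ℂ)) := by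
    rw [tendsto_nhdsWithin_iff]
    constructor
    · exact (Complex.continuous_ofReal.tendsto θ).mono_left nhdsWithin_le_nhds
    · filter_upwards [self_mem_nhdsWithin] with s hs
      simp only [Set.mem_compl_iff, Set.mem_singleton_iff, Complex.ofReal_inj]
      exact (ne_of_gt hs)
  have hneg : meromorphicOrderAt g (θ : ℂ) < 0 := by
    by_contra hcon
    push Not at hcon
    obtain ⟨c, hc⟩ := tendsto_nhds_of_meromorphicOrderAt_nonneg hg hcon
    exact not_tendsto_atTop_of_tendsto_nhds (hc.comp hmap).norm h1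
  have hpw : MeromorphicAt ((· - (θ : ℂ)) ^ 2) (θ : ℂ) := by fun_prop
  have hord : meromorphicOrderAt ((· - (θ : ℂ)) ^ 2 * g) (θ : ℂ)
      = 2 + meromorphicOrderAt g (θ : ℂ) := by
    rw [meromorphicOrderAt_mul hpw hg, meromorphicOrderAt_pow_id_sub_const]
    rfl
  have hpos : 0 < meromorphicOrderAt ((· - (θ : ℂ)) ^ 2 * g) (θ : ℂ) := by
    by_contra hcon
    push Not at hcon
    have hnorm : Tendsto (fun s : ℝ => ‖((· - (θ : ℂ)) ^ 2 * g) (s : ℂ)‖) (𝓝[>] θ) (𝓝 0) := by
      refine h2.congr (fun s => ?_)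
      simp only [Pi.mul_apply, Pi.pow_apply, norm_mul, norm_pow]
      rw [← Complex.ofReal_sub, Complex.norm_real, Real.norm_eq_abs, sq_abs]
    rcases hcon.eq_or_lt with h | h
    · obtain ⟨c, hc0, hc⟩ := tendsto_ne_zero_of_meromorphicOrderAt_eq_zero (hpw.mul hg) h
      have h3 := tendsto_nhds_unique hnorm (hc.comp hmap).norm
      exact hc0 (norm_eq_zero.mp h3.symm)
    · have h3 := tendsto_cobounded_of_meromorphicOrderAt_neg h
      have h4 := (tendsto_norm_cobounded_atTop.comp h3).comp hmap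
      exact not_tendsto_atTop_of_tendsto_nhds hnorm h4
  rw [hord] at hpos
  obtain ⟨m, hm⟩ := WithTop.ne_top_iff_exists.mp hneg.ne_top
  rw [← hm] at hneg hpos ⊢
  have e1 : m < 0 := by exact_mod_cast hneg
  have e2 : (0 : WithTop ℤ) < ((2 + m : ℤ) : WithTop ℤ) := by
    rw [WithTop.coe_add]
    exact hpos
  have e3 : 0 < 2 + m := by exact_mod_cast e2
  have : m = -1 := by omega
  rw [this]
  rfl

/-- The height zeta function `ζ_U(s) = ∑_{P ∈ U(K)} q^{-s h(P)}` for complex `s`. -/
noncomputable def zeta (F : Type) [Field F] (n p : ℕ) (S : Set (BiPoly (RatFunc F) n)) (s : ℂ) :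
    ℂ :=
  ∑' P : RatPts (RatFunc F) n p S, (Nat.card F : ℂ) ^ (-(s * (hgt P : ℂ)))

/-- `g` is a meromorphic continuation of `ζ_U` to a neighbourhood of `θ`: it is meromorphic at
`θ` and agrees with `ζ_U` at all `s` close to `θ` with real part larger than `θ`. -/
def IsContinuation (F : Type) [Field F] (n p : ℕ) (S : Set (BiPoly (RatFunc F) n)) (θ : ℝ)
    (g : ℂ → ℂ) : Prop :=
  MeromorphicAt g (θ : ℂ) ∧ ∀ᶠ s in 𝓝 (θ : ℂ), θ < s.re → g s = zeta F n p S s

lemma zeta_ofReal (F : Type) [Field F] (n p : ℕ) (S : Set (BiPoly (RatFunc F) n)) (s : ℝ) :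
    zeta F n p S (s : ℂ) = ((∑' P : RatPts (RatFunc F) n p S, zetaTerm s P : ℝ) : ℂ) := by
  rw [zeta, Complex.ofReal_tsum]
  apply tsum_congr
  intro P
  rw [zetaTerm, Complex.ofReal_cpow (by positivity)]
  push_cast
  rfl

/-- **Main result.**  Let `F` be a finite field of characteristic `p`, `K = F(t)`, `n ≥ p`.
The hypersurface `V : ∑ x_i y_i ^ p = 0` of bidegree `(1, p)` in `P^n x P^n` is smooth and
geometrically irreducible.  For every dense open `U ⊆ V`, the height zeta function of `U` for the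
embedding by `O(n, n + 1 - p)`, the anticanonical sheaf of `V`, has abscissa of convergence
exactly `θ = n / (n + 1 - p)`, and every meromorphic continuation of it to a neighbourhood of `θ`
has a pole of order exactly `1` at `θ`, while the Picard group of `V` has rank `2`. -/
theorem result (F : Type) [Field F] [Finite F] (p n : ℕ) [Fact p.Prime] [CharP F p]
    (hn : p ≤ n) :
    IsSmoothV (AlgebraicClosure (RatFunc F)) n p ∧
    IsIrreducibleV (AlgebraicClosure (RatFunc F)) n p ∧
    ∀ S, IsDenseOpen (RatFunc F) n p S →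
      Infinite (RatPts (RatFunc F) n p S) ∧
      abscissa F n p S = (((n : ℝ) / ((n : ℝ) + 1 - p) : ℝ) : EReal) ∧
      ∀ g : ℂ → ℂ, IsContinuation F n p S ((n : ℝ) / ((n : ℝ) + 1 - p)) g →
        meromorphicOrderAt g (((n : ℝ) / ((n : ℝ) + 1 - p) : ℝ) : ℂ) = -1 := by
  obtain ⟨h1, h2, h3, _, h5⟩ :=
    Pool.Agent.Results.MP_7b039f_nt.FrobeniusIncidence.result F p n hn
  refine ⟨h1, h2, fun S hS => ⟨h3 S hS, ?_, ?_⟩⟩
  · obtain ⟨C1, C2, c, hC1, hC2, hc, hbound⟩ := zeta_bound p hn S
    apply le_antisymm _ (h5 S hS).1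
    apply EReal.le_of_forall_lt_iff_le.mp
    intro z hz
    rw [EReal.coe_lt_coe_iff] at hz
    exact sInf_le ⟨z, rfl, (hbound z hz).1⟩
  · intro g hg
    obtain ⟨C1, C2, c, hC1, hC2, hc, hbound⟩ := zeta_bound p hn S
    obtain ⟨θ, hθ⟩ : ∃ θ : ℝ, θ = (n : ℝ) / ((n : ℝ) + 1 - p) := ⟨_, rfl⟩
    rw [← hθ] at hg hbound ⊢
    obtain ⟨hmer, hev⟩ := hg
    have hnn : ∀ s (P : RatPts (RatFunc F) n p S), 0 ≤ zetaTerm s P := fun s P => by
      unfold zetaTerm
      positivity
    -- agreement on the real half line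
    have hreal : ∀ᶠ s : ℝ in 𝓝[>] θ, ‖g (s : ℂ)‖
        = ∑' P : RatPts (RatFunc F) n p S, zetaTerm s P := by
      have h6 : ∀ᶠ s : ℝ in 𝓝 θ, θ < (s : ℂ).re → g s = zeta F n p S s :=
        (Complex.continuous_ofReal.tendsto θ).eventually hev
      filter_upwards [nhdsWithin_le_nhds h6, self_mem_nhdsWithin] with s hs hs'
      rw [hs (by simpa using hs'), zeta_ofReal, Complex.norm_real, Real.norm_of_nonneg
        (tsum_nonneg (hnn s))]
    have hnot : ¬ Summable (fun P : RatPts (RatFunc F) n p S => zetaTerm θ P) := by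
      obtain ⟨hbih, x, y, hxy, f, hfS, hf⟩ := hS
      rw [ptOfV_iff] at hxy
      exact diverges p hn S f hfS (hbih f hfS) x y hxy.1 hxy.2.2 hf θ hθ.le
    apply order_eq_neg_one g θ hmer
    · rw [tendsto_congr' hreal, tendsto_atTop]
      intro M
      -- a finite partial sum at θ is large
      obtain ⟨T, hT⟩ : ∃ T : Finset (RatPts (RatFunc F) n p S), M < ∑ P ∈ T, zetaTerm θ P := by
        by_contra hcon
        push Not at hcon
        exact hnot (summable_of_sum_le (hnn θ) hcon)
      have hcont : Continuous (fun s : ℝ => ∑ P ∈ T, zetaTerm s P) := by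
        apply continuous_finsetSum
        intro P _
        unfold zetaTerm
        have hq0 : (0 : ℝ) < (Nat.card F : ℝ) := by linarith [card_one_le F]
        apply Continuous.rpow continuous_const (by fun_prop)
        intro s
        exact Or.inl hq0.ne'
      have h7 : ∀ᶠ s in 𝓝 θ, M < ∑ P ∈ T, zetaTerm s P :=
        (hcont.tendsto θ).eventually (lt_mem_nhds hT)
      filter_upwards [nhdsWithin_le_nhds h7, self_mem_nhdsWithin] with s hs hs'
      exact hs.le.trans ((hbound s hs').1.sum_le_tsum T (fun P _ => hnn s P))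
    · have hup : Tendsto (fun s : ℝ => C1 * ((s - θ) * (1 + (s - θ) * c) / c) + C2 * (s - θ) ^ 2)
          (𝓝[>] θ) (𝓝 0) := by
        have hcont : Continuous (fun s : ℝ =>
            C1 * ((s - θ) * (1 + (s - θ) * c) / c) + C2 * (s - θ) ^ 2) := by fun_prop
        have := hcont.tendsto θ
        simp only [sub_self, zero_mul, zero_div, mul_zero, ne_eq, OfNat.ofNat_ne_zero,
          not_false_eq_true, zero_pow, add_zero] at this
        exact this.mono_left nhdsWithin_le_nhds
      apply tendsto_of_tendsto_of_tendsto_of_le_of_le' tendsto_const_nhds hup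
      · filter_upwards with s
        positivity
      · filter_upwards [hreal, self_mem_nhdsWithin] with s hs hs'
        have hs'' : θ < s := hs'
        have h8 := (hbound s hs').2
        rw [hs]
        have hpos : 0 < s - θ := by linarith
        calc (s - θ) ^ 2 * ∑' P : RatPts (RatFunc F) n p S, zetaTerm s P
            ≤ (s - θ) ^ 2 * (C1 * ((1 + (s - θ) * c) / ((s - θ) * c)) + C2) :=
              mul_le_mul_of_nonneg_left h8 (by positivity)
          _ = C1 * ((s - θ) * (1 + (s - θ) * c) / c) + C2 * (s - θ) ^ 2 := by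
              field_simp

end Pool.Agent.Results.MP_dd9c4c_nt.FrobeniusPole
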